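import Pool.Agent.Y133.K3.Final

/-!
# MP_9207e0_ag: zero-cycles of degree zero on a K3 surface and the Chow groups of its powers

Let `X` be a K3 surface over a field of characteristic zero over which all its divisor classes are
defined, or more generally a smooth projective variety whose transcendental motive is simple: every
self-correspondence of `X` is numerically equivalent to a sum of external products, or it is
invertible up to such sums. (For a K3 surface the quotient of `Num(X × X)` by the external products
is a subfield of the field of Hodge endomorphisms of the transcendental lattice, by Zarhin.) Let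
`d(n) = dim CH(X^n)_ℚ` (possibly infinite) and let `a(n)` be the rank of the group of cycles of all
codimensions on `X^n` modulo numerical equivalence. Then `d(n) / a(n)` converges to some
`N ∈ {1, 2, …, ∞}`, `N = 1` if and only if rational and numerical equivalence agree (with rational
coefficients) on all powers of `X`, and if there is a numerically trivial element of
`CH(X)_ℚ` which is not zero then `N ≥ b(X) - rank Num(X) + 1`. For a K3 surface of Picard number `ρ`
this says: if `CH²(X)_0 ⊗ ℚ ≠ 0` then `N ≥ 23 - ρ`.
-/

open CategoryTheory AlgebraicGeometry

universe u v w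

namespace Pool.Agent.Results.MP_9207e0_ag.IndexGap

open Pool.Agent.H914 Pool.Agent.H914.VarClass Pool.Agent.H914.VarClass.Obj
  Pool.Agent.H914.WeilCohomology Pool.Agent.W492.BB Pool.Agent.TH133 Pool.Agent.Y133.Chow
  Pool.Agent.Y133.K3 Pool.Agent.Y133.Half

variable {k : Type u} [Field k] {𝒱 : VarClass k} {ops : CycleOps 𝒱}

theorem result {W : WeilCohomology.{u, v} ops} {C : TheoryData.{u, w, 0} 𝒱 ℚ} [IsChowProj C]
    (c : ClassMap W C) (X : 𝒱.Obj) [Nontrivial (W.H X)] (h : SimpleTranscendental c X) :
    ∃ N : ℕ∞, 1 ≤ N ∧ HasChowIndex ops C X N ∧ (N = 1 ↔ NumTrivialZero c X) ∧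
      (NoNumTrivial c X ∨ (betti W X : ℕ∞) + 1 ≤ N + cycRank ops X) :=
  gap_law c h

end Pool.Agent.Results.MP_9207e0_ag.IndexGap
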